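import Mathlib
import Pool.Agent.V11296.Bhargava

/-!
# Bhargava factorials of prime quadruplets and of twin primes

The proposed identity for `n!_{P_4} / n!_{P_2}` fails for `n = 28`: the prime `29` does not belong
to `P_4`, so that `P_4` meets only the `28` non-zero residue classes modulo `29` and `29` divides
`28!_{P_4}`, while `29` is a twin prime, the twin primes meet all classes modulo `29`, and `29`
divides neither `28!_{P_2}` nor `3 w_3(28) = 3`.
-/

set_option autoImplicit false

namespace Pool.Agent.Results.MP_38a930_nt.FailsAt28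

open Finset Pool.Agent.V11296.Bhargava

/-- The set of twin primes: all members of a pair of primes `q, q + 2`. -/
def twinPrimeSet : Set ℤ :=
  {x | ∃ q : ℕ, q.Prime ∧ (q + 2).Prime ∧ (x = q ∨ x = q + 2)}

/-- The set `P_4` of all members of quadruplets of primes `q, q + 2, q + 6, q + 8`. -/
def quadrupletSet : Set ℤ :=
  {x | ∃ q : ℕ, q.Prime ∧ (q + 2).Prime ∧ (q + 6).Prime ∧ (q + 8).Prime ∧
    (x = q ∨ x = q + 2 ∨ x = q + 6 ∨ x = q + 8)}

lemma memB : ∀ x ∈ ([29, 59, 31, 3, 149, 5, 151, 7, 269, 241, 271, 11, 41, 13, 43, 73, 103, 17, 569, 19, 107, 137, 109, 139, 227, 199, 229, 433, 347] : List ℤ), x ∈ twinPrimeSet := by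
  simp only [List.forall_mem_cons, List.not_mem_nil, false_imp_iff, implies_true, and_true]
  refine ⟨?_, ?_, ?_, ?_, ?_, ?_, ?_, ?_, ?_, ?_, ?_, ?_, ?_, ?_, ?_, ?_, ?_, ?_, ?_, ?_, ?_, ?_, ?_, ?_, ?_, ?_, ?_, ?_, ?_⟩
  · exact ⟨29, by norm_num, by norm_num, by norm_num⟩
  · exact ⟨59, by norm_num, by norm_num, by norm_num⟩
  · exact ⟨29, by norm_num, by norm_num, by norm_num⟩
  · exact ⟨3, by norm_num, by norm_num, by norm_num⟩
  · exact ⟨149, by norm_num, by norm_num, by norm_num⟩
  · exact ⟨5, by norm_num, by norm_num, by norm_num⟩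
  · exact ⟨149, by norm_num, by norm_num, by norm_num⟩
  · exact ⟨5, by norm_num, by norm_num, by norm_num⟩
  · exact ⟨269, by norm_num, by norm_num, by norm_num⟩
  · exact ⟨239, by norm_num, by norm_num, by norm_num⟩
  · exact ⟨269, by norm_num, by norm_num, by norm_num⟩
  · exact ⟨11, by norm_num, by norm_num, by norm_num⟩
  · exact ⟨41, by norm_num, by norm_num, by norm_num⟩
  · exact ⟨11, by norm_num, by norm_num, by norm_num⟩
  · exact ⟨41, by norm_num, by norm_num, by norm_num⟩
  · exact ⟨71, by norm_num, by norm_num, by norm_num⟩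
  · exact ⟨101, by norm_num, by norm_num, by norm_num⟩
  · exact ⟨17, by norm_num, by norm_num, by norm_num⟩
  · exact ⟨569, by norm_num, by norm_num, by norm_num⟩
  · exact ⟨17, by norm_num, by norm_num, by norm_num⟩
  · exact ⟨107, by norm_num, by norm_num, by norm_num⟩
  · exact ⟨137, by norm_num, by norm_num, by norm_num⟩
  · exact ⟨107, by norm_num, by norm_num, by norm_num⟩
  · exact ⟨137, by norm_num, by norm_num, by norm_num⟩
  · exact ⟨227, by norm_num, by norm_num, by norm_num⟩
  · exact ⟨197, by norm_num, by norm_num, by norm_num⟩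
  · exact ⟨227, by norm_num, by norm_num, by norm_num⟩
  · exact ⟨431, by norm_num, by norm_num, by norm_num⟩
  · exact ⟨347, by norm_num, by norm_num, by norm_num⟩
lemma memA : ∀ x ∈ ([5, 7, 11, 13, 17, 19, 101, 103, 107, 109, 191, 193, 197, 199, 821, 823, 827, 829, 1481, 1483, 1487, 1489, 1871, 1873, 1877, 1879, 2081, 2083, 2087] : List ℤ), x ∈ quadrupletSet := by
  simp only [List.forall_mem_cons, List.not_mem_nil, false_imp_iff, implies_true, and_true]
  refine ⟨?_, ?_, ?_, ?_, ?_, ?_, ?_, ?_, ?_, ?_, ?_, ?_, ?_, ?_, ?_, ?_, ?_, ?_, ?_, ?_, ?_, ?_, ?_, ?_, ?_, ?_, ?_, ?_, ?_⟩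
  · exact ⟨5, by norm_num, by norm_num, by norm_num, by norm_num, by norm_num⟩
  · exact ⟨5, by norm_num, by norm_num, by norm_num, by norm_num, by norm_num⟩
  · exact ⟨11, by norm_num, by norm_num, by norm_num, by norm_num, by norm_num⟩
  · exact ⟨11, by norm_num, by norm_num, by norm_num, by norm_num, by norm_num⟩
  · exact ⟨11, by norm_num, by norm_num, by norm_num, by norm_num, by norm_num⟩
  · exact ⟨11, by norm_num, by norm_num, by norm_num, by norm_num, by norm_num⟩
  · exact ⟨101, by norm_num, by norm_num, by norm_num, by norm_num, by norm_num⟩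
  · exact ⟨101, by norm_num, by norm_num, by norm_num, by norm_num, by norm_num⟩
  · exact ⟨101, by norm_num, by norm_num, by norm_num, by norm_num, by norm_num⟩
  · exact ⟨101, by norm_num, by norm_num, by norm_num, by norm_num, by norm_num⟩
  · exact ⟨191, by norm_num, by norm_num, by norm_num, by norm_num, by norm_num⟩
  · exact ⟨191, by norm_num, by norm_num, by norm_num, by norm_num, by norm_num⟩
  · exact ⟨191, by norm_num, by norm_num, by norm_num, by norm_num, by norm_num⟩
  · exact ⟨191, by norm_num, by norm_num, by norm_num, by norm_num, by norm_num⟩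
  · exact ⟨821, by norm_num, by norm_num, by norm_num, by norm_num, by norm_num⟩
  · exact ⟨821, by norm_num, by norm_num, by norm_num, by norm_num, by norm_num⟩
  · exact ⟨821, by norm_num, by norm_num, by norm_num, by norm_num, by norm_num⟩
  · exact ⟨821, by norm_num, by norm_num, by norm_num, by norm_num, by norm_num⟩
  · exact ⟨1481, by norm_num, by norm_num, by norm_num, by norm_num, by norm_num⟩
  · exact ⟨1481, by norm_num, by norm_num, by norm_num, by norm_num, by norm_num⟩
  · exact ⟨1481, by norm_num, by norm_num, by norm_num, by norm_num, by norm_num⟩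
  · exact ⟨1481, by norm_num, by norm_num, by norm_num, by norm_num, by norm_num⟩
  · exact ⟨1871, by norm_num, by norm_num, by norm_num, by norm_num, by norm_num⟩
  · exact ⟨1871, by norm_num, by norm_num, by norm_num, by norm_num, by norm_num⟩
  · exact ⟨1871, by norm_num, by norm_num, by norm_num, by norm_num, by norm_num⟩
  · exact ⟨1871, by norm_num, by norm_num, by norm_num, by norm_num, by norm_num⟩
  · exact ⟨2081, by norm_num, by norm_num, by norm_num, by norm_num, by norm_num⟩
  · exact ⟨2081, by norm_num, by norm_num, by norm_num, by norm_num, by norm_num⟩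
  · exact ⟨2081, by norm_num, by norm_num, by norm_num, by norm_num, by norm_num⟩

lemma notDvd : ∀ x ∈ quadrupletSet, ¬ ((29 : ℕ) : ℤ) ∣ x := by
  rintro x ⟨q, hq, hq2, hq6, hq8, rfl | rfl | rfl | rfl⟩ h
  · have h1 : 29 ∣ q := by exact_mod_cast h
    rw [Nat.prime_dvd_prime_iff_eq (by norm_num) hq] at h1
    subst h1
    revert hq6; norm_num
  · have h1 : 29 ∣ q + 2 := by exact_mod_cast h
    rw [Nat.prime_dvd_prime_iff_eq (by norm_num) hq2] at h1
    obtain rfl : q = 27 := by omega
    revert hq; norm_num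
  · have h1 : 29 ∣ q + 6 := by exact_mod_cast h
    rw [Nat.prime_dvd_prime_iff_eq (by norm_num) hq6] at h1
    obtain rfl : q = 23 := by omega
    revert hq2; norm_num
  · have h1 : 29 ∣ q + 8 := by exact_mod_cast h
    rw [Nat.prime_dvd_prime_iff_eq (by norm_num) hq8] at h1
    obtain rfl : q = 21 := by omega
    revert hq; norm_num

/-- `29` divides the factorial of the smaller set, but not that of the larger one. -/
lemma key {F G : ℕ} (hF : IsBhargavaFactorial quadrupletSet 28 F) (hG : IsBhargavaFactorial twinPrimeSet 28 G) :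
    29 ∣ F ∧ ¬ 29 ∣ G := by
  have hp : Nat.Prime 29 := by norm_num
  have : Fact (Nat.Prime 29) := ⟨hp⟩
  refine ⟨?_, ?_⟩
  · obtain ⟨⟨a, ha⟩, h⟩ := hF.2 29 hp
    have h1 := h a ha
    have h2 := val_pos hp (by norm_num) ha notDvd
    rw [← h1] at h2
    exact dvd_of_one_le_padicValNat (by omega)
  · obtain ⟨⟨a, ha⟩, h⟩ := hG.2 29 hp
    have h1 := h a ha
    have h2 := val_zero hp ha ([29, 59, 31, 3, 149, 5, 151, 7, 269, 241, 271, 11, 41, 13, 43, 73, 103, 17, 569, 19, 107, 137, 109, 139, 227, 199, 229, 433, 347] : List ℤ).toFinset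
      (by
        intro x hx
        exact memB x (by simpa using hx)) (by decide) (by decide)
    rw [h2] at h1
    intro hdvd
    have := one_le_padicValNat_of_dvd hG.1 hdvd
    omega

/-- There is an integer `n ≥ 1` for which both factorials `n!_{P_4}` and `n!_{P_2}` are defined
and `n!_{P_4} / n!_{P_2}` is different from `3 w_3(n)` (`n` even), `1` (`n` odd). -/
theorem result : ∃ n : ℕ, 1 ≤ n ∧ ∃ F G : ℕ, IsBhargavaFactorial quadrupletSet n F ∧
    IsBhargavaFactorial twinPrimeSet n G ∧
    (F : ℚ) / G ≠ if Even n then (3 : ℚ) * 3 ^ padicValNat 3 n else 1 := by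
  obtain ⟨F, hF⟩ := exists_factorial quadrupletSet 28 ([5, 7, 11, 13, 17, 19, 101, 103, 107, 109, 191, 193, 197, 199, 821, 823, 827, 829, 1481, 1483, 1487, 1489, 1871, 1873, 1877, 1879, 2081, 2083, 2087] : List ℤ).toFinset
    (by
      intro x hx
      exact memA x (by simpa using hx)) (by decide)
  obtain ⟨G, hG⟩ := exists_factorial twinPrimeSet 28 ([29, 59, 31, 3, 149, 5, 151, 7, 269, 241, 271, 11, 41, 13, 43, 73, 103, 17, 569, 19, 107, 137, 109, 139, 227, 199, 229, 433, 347] : List ℤ).toFinset
    (by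
      intro x hx
      exact memB x (by simpa using hx)) (by decide)
  refine ⟨28, by norm_num, F, G, hF, hG, ?_⟩
  intro h
  have hG0 : (G : ℚ) ≠ 0 := by exact_mod_cast hG.1
  have hv3 : padicValNat 3 28 = 0 := padicValNat.eq_zero_of_not_dvd (by norm_num)
  rw [if_pos (by decide), hv3, div_eq_iff hG0] at h
  have h2 : F = 3 * G := by
    have : (F : ℚ) = ((3 * G : ℕ) : ℚ) := by
      rw [h]; norm_num
    exact_mod_cast this
  obtain ⟨h3, h4⟩ := key hF hG
  rw [h2, Nat.Prime.dvd_mul (by norm_num)] at h3
  rcases h3 with h3 | h3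
  · revert h3; norm_num
  · exact h4 h3

end Pool.Agent.Results.MP_38a930_nt.FailsAt28
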